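import Pool.Agent.Lib.MP_226ef1_lc.U.Tools

/-!
# Module A0: the hub is unique in Case A
-/

set_option autoImplicit false

namespace Pool.Agent.Lib.MP_226ef1_lc.U.H70

universe u

theorem a0 : A0Statement.{u} := by
  classical
  intro J _ α G main gen N hcore hcons hex
  obtain ⟨x, hxG, hx, Z, hZ, hZx⟩ := hex
  have hZc : Z.card ≤ 1 := by
    refine Finset.card_le_one.2 fun a ha b hb => ?_
    rw [(hZx a).1 ha, (hZx b).1 hb]
  obtain ⟨V, -, hVG, ⟨o, hoV, ho⟩, -⟩ := hcons.c3 Z hZ (by omega)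
    (fun t ht => by rw [(hZx t).1 ht]; exact hx)
  have hoG : o ∈ G := (hVG o hoV).1
  refine ⟨o, hcore, hcons, hoG, fun t ht => ⟨fun hm => ?_, ?_⟩, ⟨x, hxG, hx, Z, hZ, hZx⟩⟩
  · have hsub : Z ⊆ ({x, o, t} : Finset α) := by
      intro a ha
      rw [(hZx a).1 ha]
      simp
    have hsubG : ({x, o, t} : Finset α) ⊆ G := by
      intro a ha
      simp only [Finset.mem_insert, Finset.mem_singleton] at ha
      rcases ha with rfl | rfl | rfl
      · exact hxG
      · exact hoG
      · exact ht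
    have hcard : ({x, o, t} : Finset α).card ≤ 5 := (Finset.card_le_three).trans (by norm_num)
    exact hcons.c1 _ (hcore.gen_up Z _ hZ hsub hsubG) hcard t (by simp) o (by simp) hm ho
  · rintro rfl
    exact ho

end Pool.Agent.Lib.MP_226ef1_lc.U.H70
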