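import Pool.Agent.Lib.MP_226ef1_lc.U.IfaceM

/-!
# Module DIAG: the halting problem
-/

set_option autoImplicit false

namespace Pool.Agent.Lib.MP_226ef1_lc.U.H70

open Encodable

theorem diag : DiagStatement := by
  intro f hf h
  have h1 : ComputablePred fun c : Nat.Partrec.Code => (c.eval 0).Dom := by
    rw [ComputablePred.computable_iff]
    refine ⟨fun c => !f (encode c), (Primrec.not.to_comp).comp (hf.comp Computable.encode), ?_⟩
    funext c
    have := h (encode c)
    simp only [U.diag, Denumerable.ofNat_encode] at this
    apply propext
    show (c.eval 0).Dom ↔ (!f (encode c)) = true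
    rcases hfc : f (encode c) with _ | _
    · simp only [hfc, Bool.false_eq_true, false_iff, not_not] at this
      simp [this]
    · simp only [hfc, true_iff] at this
      simp [this]
  exact ComputablePred.halting_problem 0 h1

end Pool.Agent.Lib.MP_226ef1_lc.U.H70
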