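import Pool.Agent.Lib.MP_226ef1_lc.U.IfaceC
import Pool.Agent.Lib.MP_226ef1_lc.U.Tools

/-!
# Module FAML: the family as a list, bound for the colours
-/

set_option autoImplicit false

namespace Pool.Agent.Lib.MP_226ef1_lc.U.H70

theorem mkT_cols_lt {J : TS} {l r h m : ℕ} {D : ℕ → Prop} {bad : List ℕ → Prop}
    (hr : r ≤ 5) (hh : h ≤ 5) (hm : m ≤ J.L ∨ m ≤ 1) (hD : ∀ k, D k → k ≤ J.bound) :
    ∀ c, (mkT l r h D m bad).cols c → c < cbd J := by
  intro c hc
  simp only [mkT] at hc
  unfold cbd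
  rcases hc with ⟨i, hi, rfl⟩ | ⟨i, hi, rfl⟩ | ⟨k, hk, rfl⟩ | ⟨i, hi, rfl⟩
  · unfold cc; omega
  · unfold kk; omega
  · have := hD k hk
    unfold dd; omega
  · unfold oo
    rcases hm with hm | hm <;> omega

theorem faml : FamLStatement := by
  intro J hJ
  refine ⟨fun τ => ?_, ?_⟩
  · constructor
    · intro h
      simp only [famL, List.mem_append, List.mem_cons, List.mem_map, List.mem_range,
        List.not_mem_nil, or_false] at h
      rcases h with (((h | h) | h) | h) | h
      · rcases h with rfl | rfl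
        · exact Or.inl (Or.inl rfl)
        · exact Or.inl (Or.inr (Or.inl rfl))
      · obtain ⟨r, hr, rfl⟩ := h
        exact Or.inl (Or.inr (Or.inr (Or.inl ⟨r + 1, by omega, by omega, rfl⟩)))
      · obtain ⟨r, hr, rfl⟩ := h
        exact Or.inl (Or.inr (Or.inr (Or.inr (Or.inl ⟨r + 1, by omega, by omega, rfl⟩))))
      · obtain ⟨q, hq, rfl⟩ := h
        refine Or.inl (Or.inr (Or.inr (Or.inr (Or.inr ⟨q.1, q.2, ?_, ?_, rfl⟩))))
        · rcases hq with rfl | rfl | rfl | rfl | rfl | rfl | rfl | rfl | rfl | rfl <;> simp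
        · rcases hq with rfl | rfl | rfl | rfl | rfl | rfl | rfl | rfl | rfl | rfl <;> simp
      · obtain ⟨g, hg, rfl⟩ := h
        exact Or.inr ⟨g + 1, by omega, by omega, rfl⟩
    · intro h
      simp only [famL, List.mem_append, List.mem_cons, List.mem_map, List.mem_range,
        List.not_mem_nil, or_false]
      rcases h with (rfl | rfl | ⟨r, h1, h2, rfl⟩ | ⟨r, h1, h2, rfl⟩ | ⟨r, h, h1, h2, rfl⟩) |
        ⟨g, h1, h2, rfl⟩
      · exact Or.inl (Or.inl (Or.inl (Or.inl (Or.inl rfl))))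
      · exact Or.inl (Or.inl (Or.inl (Or.inl (Or.inr rfl))))
      · refine Or.inl (Or.inl (Or.inl (Or.inr ⟨r - 1, by omega, ?_⟩)))
        have : r - 1 + 1 = r := by omega
        rw [this]
      · refine Or.inl (Or.inl (Or.inr ⟨r - 1, by omega, ?_⟩))
        have : r - 1 + 1 = r := by omega
        rw [this]
      · refine Or.inl (Or.inr ⟨(r, h), ?_, rfl⟩)
        have hr : r ≤ 3 := by omega
        have hh : h ≤ 5 := by omega
        interval_cases r <;> interval_cases h <;> simp_all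
      · refine Or.inr ⟨g - 1, by omega, ?_⟩
        have : g - 1 + 1 = g := by omega
        rw [this]
  · intro τ hτ
    have hL : 1 ≤ J.L := by unfold TS.L; omega
    rcases hτ with (rfl | rfl | ⟨r, h1, h2, rfl⟩ | ⟨r, h1, h2, rfl⟩ | ⟨r, h, h1, h2, rfl⟩) |
        ⟨g, h1, h2, rfl⟩
    · exact mkT_cols_lt (by omega) (by omega) (Or.inr le_rfl)
        (fun k hk => (hJ.lt k hk.1).le)
    · exact mkT_cols_lt (by omega) (by omega) (Or.inr le_rfl) (fun k hk => by omega)
    · exact mkT_cols_lt h2 (by omega) (Or.inr le_rfl) (fun k hk => by omega)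
    · exact mkT_cols_lt (by omega) (by omega) (Or.inr le_rfl) (fun k hk => by omega)
    · exact mkT_cols_lt (by omega) (by omega) (Or.inr le_rfl) (fun k hk => by omega)
    · exact mkT_cols_lt (by omega) h2 (Or.inl le_rfl) (fun k hk => hk.elim)

end Pool.Agent.Lib.MP_226ef1_lc.U.H70
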