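import Pool.Agent.Lib.MP_226ef1_lc.U.IfaceC
import Pool.Agent.Lib.MP_226ef1_lc.U.Tools

/-!
# Module LOCB: from alphabets with `n` letters to subsets with at most `n` elements
-/

set_option autoImplicit false

namespace Pool.Agent.Lib.MP_226ef1_lc.U.H70

universe u

theorem locb : LocbStatement.{u} := by
  classical
  intro J n T _ h Y hY u hu huY
  obtain ⟨t0, ht0⟩ := List.exists_mem_of_ne_nil u hu
  have hpos : 0 < Y.card := Finset.card_pos.2 ⟨t0, huY t0 ht0⟩
  have hn : 0 < n := lt_of_lt_of_le hpos hY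
  let g : T → Fin n := fun t => if ht : t ∈ Y then
    ⟨(Y.equivFin ⟨t, ht⟩).1, lt_of_lt_of_le (Y.equivFin ⟨t, ht⟩).2 hY⟩ else ⟨0, hn⟩
  let f : Fin n → T := fun i => if hi : i.1 < Y.card then (Y.equivFin.symm ⟨i.1, hi⟩).1 else t0
  have hfg : ∀ t ∈ Y, f (g t) = t := by
    intro t ht
    simp only [f, g, ht, dif_pos]
    rw [dif_pos (Y.equivFin ⟨t, ht⟩).2]
    simp
  obtain ⟨τ, hτ, σ, hσ, hsep⟩ := h f (u.map g) (by simpa using hu)
  refine ⟨τ, hτ, fun t => σ (g t), fun t => hσ (g t), fun v hv hvY hnf => ?_⟩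
  have hmap : ∀ w : List T, (∀ t ∈ w, t ∈ Y) → (w.map g).map f = w.map fun t => t := by
    intro w hw
    rw [List.map_map]
    exact List.map_congr_left fun t ht => hfg t (hw t ht)
  have h1 := hsep (v.map g) (by simpa using hv) (fun _ _ => Set.mem_univ _) (by
    rw [List.flatMap_map, List.flatMap_map]
    exact hnf)
  rw [hmap v (fun t ht => by simpa using hvY t ht), hmap u huY] at h1
  exact h1

end Pool.Agent.Lib.MP_226ef1_lc.U.H70
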