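import Pool.Agent.Lib.MP_226ef1_lc.U.Tools

/-!
# Module STEP5: words with small content
-/

set_option autoImplicit false

namespace Pool.Agent.Lib.MP_226ef1_lc.U.H70

universe u

theorem step5 (hfw : FamWfStatement) : Step5Statement.{u} := by
  classical
  intro J hJ T _ hloc G u hlen huG hr hcard ⟨x, hxG, hx⟩
  have hu : u ≠ [] := by
    rintro rfl
    simp at hlen
  obtain ⟨τ, hτ, σ, hσ, hsep⟩ := hloc G hcard u hu (fun t ht => (huG t).1 ht)
  have hwf := (hfw J hJ τ hτ).1
  have h0 : 0 ∉ u.flatMap σ := by
    intro h0
    have h1 : prd ((u ++ [x]).map fun t : T => t) = prd (u.map fun t : T => t) := by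
      refine hsep (u ++ [x]) (by simp) (fun g hg => ?_) ?_
      · rcases List.mem_append.1 hg with hg | hg
        · exact (huG g).1 hg
        · rw [List.mem_singleton.1 hg]; exact hxG
      · rw [Tm.nf_zero h0, Tm.nf_zero]
        rw [List.flatMap_append]
        exact List.mem_append_left _ h0
    rw [List.map_id', List.map_id'] at h1
    have hG : ∀ t ∈ u, t ∈ G := fun t ht => (huG t).1 ht
    have hG' : ∀ t ∈ u ++ [x], t ∈ G := by
      intro t ht
      rcases List.mem_append.1 ht with ht | ht
      · exact hG t ht
      · rw [List.mem_singleton.1 ht]; exact hxG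
    have h2 : ee J.L G * prd (u ++ [x]) = ee J.L G * prd u := by rw [h1]
    have hp : par (mn J.L G) (u ++ [x]) = (par (mn J.L G) u + 1) % 2 := by
      rw [par_append, par_singleton_pos hx]
    have hlt := par_lt (p := mn J.L G) u
    rcases Nat.lt_or_ge (par (mn J.L G) u) 1 with hpu | hpu
    · have e0 : par (mn J.L G) u = 0 := by omega
      rw [e0] at hp
      exact hr.odd _ hG' (by simpa using hp) (h2.trans (hr.even u hG e0))
    · have e1 : par (mn J.L G) u = 1 := by omega
      rw [e1] at hp
      exact hr.odd u hG e1 (h2.symm.trans (hr.even _ hG' (by simpa using hp)))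
  refine ⟨τ, hτ, fun t => if t ∈ G then σ t else [0], fun t => ?_, fun v hv _ hnf => ?_⟩
  · by_cases ht : t ∈ G
    · simp only [ht, if_true]; exact hσ t
    · simp [ht]
  · have hcongr : ∀ w : List T, (∀ t ∈ w, t ∈ G) →
        w.flatMap (fun t => if t ∈ G then σ t else [0]) = w.flatMap σ := by
      intro w hw
      induction w with
      | nil => rfl
      | cons a w ih =>
        rw [List.flatMap_cons, List.flatMap_cons, ih fun t ht => hw t (by simp [ht]),
          if_pos (hw a (by simp))]
    rw [hcongr u (fun t ht => (huG t).1 ht)] at hnf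
    have hvG : ∀ t ∈ v, t ∈ G := by
      intro t ht
      by_contra htG
      have hz : 0 ∈ v.flatMap (fun t => if t ∈ G then σ t else [0]) := by
        rw [List.mem_flatMap]
        exact ⟨t, ht, by simp [htG]⟩
      have hne : v.flatMap (fun t => if t ∈ G then σ t else [0]) ≠ [] := by
        intro h; rw [h] at hz; simp at hz
      have hune : u.flatMap σ ≠ [] := by
        obtain ⟨a, ha⟩ := List.exists_mem_of_ne_nil u hu
        intro h
        rw [List.flatMap_eq_nil_iff] at h
        exact hσ a (h a ha)
      rcases Tm.of_nf_eq hwf hne hune hnf with ⟨_, h⟩ | ⟨h, _⟩ | ⟨h, _⟩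
      · exact h0 h
      · exact h hz
      · exact h hz
    rw [hcongr v hvG] at hnf
    exact hsep v hv (fun g hg => hvG g hg) hnf

end Pool.Agent.Lib.MP_226ef1_lc.U.H70
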